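import Mathlib
import Pool.Agent.Run7.h88.Spec
import Pool.Agent.Run7.h88.Gen
import Pool.Agent.TH463.UQ.Trace

/-!
# The values of ALL tracial states of `C*(ℤ² ⋉ ℤ[1/6])` on the powers of a translation

Let `G` be the group generated by `x ↦ 2 x`, `x ↦ 3 x`, `x ↦ x + 1` on `ℚ`, a copy of
`ℤ² ⋉ ℤ[1/6]`.  The tracial states of `C*(G)` are the normalised positive definite class functions
`φ` on `G`.  For every `ε > 0` there are `D₀` and `K₀` such that for EVERY tracial state `φ` (extreme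
or not) and EVERY translation `g` in `G` there is an integer `1 ≤ D ≤ D₀` for which at every scale
`K ≥ K₀` the Toeplitz matrix `(φ (g ^ (D (k - l))))_(k, l < K)` is, up to a matrix of norm at most
`ε K`, the real constant `p K` between `0` and `1` times the matrix all of whose entries are `1`; the
constant `p K` decreases with `K`, but slowly: `p K ≤ p (K ^ 2) + ε`.

So the matrix has at most one eigenvalue larger than `ε K` (a single large eigenvalue is unavoidable:
for the extreme traces which are conditionally finite-dimensional `p K` does not tend to `0`; for the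
other extreme traces `p K` tends to `0`, but this can be arbitrarily slow as far as we know).

For a general sequence of unitaries or a general invariant measure of `x ↦ 2 x` alone nothing like
this is true. The proof uses that the `×2`, `×3`-invariant measures have no mass at a single
exponential scale (starting tree, Subspace theorem).
-/

set_option autoImplicit false

open MeasureTheory Filter Topology Finset
open scoped ComplexOrder

namespace Pool.Agent.Results.MP_81910f_an.NearlyConstantValues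

/-- The tracial states of `C*(G)`: the normalised positive definite class functions on `G`. -/
def TracialStates (G : Subgroup (Equiv.Perm ℚ)) : Set (G → ℂ) :=
  {ψ | ψ 1 = 1 ∧ (∀ g h : G, ψ (h * g * h⁻¹) = ψ g) ∧
    ∀ (s : Finset G) (c : G → ℂ), 0 ≤ ∑ i ∈ s, ∑ j ∈ s, star (c j) * c i * ψ (j⁻¹ * i)}

/-- `h` is a translation `x ↦ x + r`. -/
def IsTranslation {G : Subgroup (Equiv.Perm ℚ)} (h : G) : Prop :=
  ∃ r : ℚ, ∀ x : ℚ, (h : Equiv.Perm ℚ) x = x + r

/-- The translates of `φ` by the translations span a finite-dimensional space. -/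
def CondFiniteDim {G : Subgroup (Equiv.Perm ℚ)} (φ : G → ℂ) : Prop :=
  FiniteDimensional ℂ (Submodule.span ℂ {F : G → ℂ | ∃ n : G,
    IsTranslation n ∧ F = fun x => φ (n * x)})

/-! ### Positive definite functions -/

/-- the Cauchy–Schwarz inequality -/
lemma cauchy_schwarz {H : Type*} [Group H] {φ : H → ℂ} (h : Pool.Agent.W763.Tr.PD φ) (h1 : φ 1 = 1)
    (K : ℕ) (x : ℕ → H) (w : H) (c : ℕ → ℂ) :
    ‖∑ k ∈ range K, c k * φ (w * x k)‖ ^ 2 ≤
      (∑ k ∈ range K, ∑ l ∈ range K, star (c l) * c k * φ ((x l)⁻¹ * x k)).re := by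
  classical
  set S : ℂ := ∑ k ∈ range K, c k * φ (w * x k) with hS
  set Q : ℂ := ∑ k ∈ range K, ∑ l ∈ range K, star (c l) * c k * φ ((x l)⁻¹ * x k) with hQ
  have h2 := h.family (univ : Finset (Option (Fin K)))
    (fun o => o.elim w⁻¹ (fun i => x i)) (fun o => o.elim (-S) (fun i => c i))
  rw [Fintype.sum_option] at h2
  simp only [Fintype.sum_option, Option.elim_none, Option.elim_some, inv_inv, mul_inv_cancel,
    h1] at h2
  have e1 : ∑ i : Fin K, star (c i) * -S * φ ((x i)⁻¹ * w⁻¹) = -(S * star S) := by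
    have : ∀ i : Fin K, star (c i) * -S * φ ((x i)⁻¹ * w⁻¹) = -S * star (c i * φ (w * x i)) := by
      intro i
      rw [← mul_inv_rev, h.inv h1, star_mul]
      ring
    simp_rw [this]
    rw [← Finset.mul_sum, ← star_sum, Fin.sum_univ_eq_sum_range (fun k => c k * φ (w * x k)) K]
    ring
  have e2 : ∑ i : Fin K, (star (-S) * c i * φ (w * x i) +
      ∑ j : Fin K, star (c j) * c i * φ ((x j)⁻¹ * x i)) = -(S * star S) + Q := by
    rw [Finset.sum_add_distrib]
    congr 1
    · simp_rw [mul_assoc]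
      rw [← Finset.mul_sum, Fin.sum_univ_eq_sum_range (fun k => c k * φ (w * x k)) K, star_neg]
      ring
    · rw [hQ, ← Fin.sum_univ_eq_sum_range
        (fun k => ∑ l ∈ range K, star (c l) * c k * φ ((x l)⁻¹ * x k)) K]
      refine Finset.sum_congr rfl fun i _ => ?_
      rw [← Fin.sum_univ_eq_sum_range (fun l => star (c l) * c i * φ ((x l)⁻¹ * x i)) K]
  rw [e1, e2] at h2
  have e3 : star (-S) * -S * 1 + -(S * star S) + (-(S * star S) + Q) = Q - S * star S := by
    rw [star_neg]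
    ring
  rw [e3] at h2
  have h3 := (Complex.nonneg_iff.1 h2).1
  have e4 : S * star S = ((‖S‖ ^ 2 : ℝ) : ℂ) := by
    rw [Complex.star_def, Complex.mul_conj, Complex.normSq_eq_norm_sq]
  rw [e4, Complex.sub_re, Complex.ofReal_re] at h3
  linarith

/-- the values on the differences -/
lemma norm_diff {H : Type*} [Group H] {φ : H → ℂ} (h : Pool.Agent.W763.Tr.PD φ) (h1 : φ 1 = 1)
    (g : H) (D : ℕ) (p : ℝ) (k l : ℕ) :
    ‖φ ((g ^ (D * l))⁻¹ * g ^ (D * k)) - p‖ =
      if l ≤ k then ‖φ (g ^ (D * (k - l))) - p‖ else ‖φ (g ^ (D * (l - k))) - p‖ := by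
  split_ifs with hlk
  · congr 3
    rw [inv_mul_eq_iff_eq_mul, ← pow_add]
    congr 1
    rw [← mul_add]
    congr 1
    omega
  · have e : (g ^ (D * l))⁻¹ * g ^ (D * k) = (g ^ (D * (l - k)))⁻¹ := by
      rw [inv_mul_eq_iff_eq_mul, eq_mul_inv_iff_mul_eq, ← pow_add]
      congr 1
      rw [← mul_add]
      congr 1
      omega
    rw [e, h.inv h1]
    have e2 : star (φ (g ^ (D * (l - k)))) - (p : ℂ) = star (φ (g ^ (D * (l - k))) - (p : ℂ)) := by
      rw [star_sub, Complex.star_def, Complex.conj_ofReal]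
    rw [e2, norm_star]

lemma row_le (b : ℕ → ℝ) (hb : ∀ n, 0 ≤ b n) (K l : ℕ) (hl : l < K) :
    ∑ k ∈ range K, (if l ≤ k then b (k - l) else b (l - k)) ≤ 2 * ∑ k ∈ range K, b k := by
  classical
  rw [Finset.sum_ite]
  have h1 : ∑ k ∈ (range K).filter (fun k => l ≤ k), b (k - l) ≤ ∑ k ∈ range K, b k := by
    rw [← Finset.sum_image (f := b) (g := fun k => k - l) (s := (range K).filter (fun k => l ≤ k))]
    · refine Finset.sum_le_sum_of_subset_of_nonneg ?_ fun _ _ _ => hb _
      intro d hd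
      obtain ⟨k, hk, rfl⟩ := mem_image.1 hd
      rw [mem_filter, mem_range] at hk
      rw [mem_range]
      omega
    · intro a ha a' ha' he
      simp only [coe_filter, mem_range, Set.mem_ofPred_eq] at ha ha'
      simp only at he
      omega
  have h2 : ∑ k ∈ (range K).filter (fun k => ¬ l ≤ k), b (l - k) ≤ ∑ k ∈ range K, b k := by
    rw [← Finset.sum_image (f := b) (g := fun k => l - k) (s := (range K).filter (fun k => ¬ l ≤ k))]
    · refine Finset.sum_le_sum_of_subset_of_nonneg ?_ fun _ _ _ => hb _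
      intro d hd
      obtain ⟨k, hk, rfl⟩ := mem_image.1 hd
      rw [mem_filter, mem_range] at hk
      rw [mem_range]
      omega
    · intro a ha a' ha' he
      simp only [coe_filter, mem_range, Set.mem_ofPred_eq] at ha ha'
      simp only at he
      omega
  linarith

/-- from the mean square to the norm of the matrix -/
lemma matrix_le {H : Type*} [Group H] {φ : H → ℂ} (h : Pool.Agent.W763.Tr.PD φ) (h1 : φ 1 = 1)
    (g : H) (D K : ℕ) (p ε δ : ℝ) (hε : 0 ≤ ε) (hδ : 2 * δ ≤ ε ^ 2)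
    (hms : ∑ k ∈ range K, ‖φ (g ^ (D * k)) - p‖ ^ 2 ≤ δ * K) (c : ℕ → ℂ) :
    ‖∑ k ∈ range K, ∑ l ∈ range K, star (c l) * c k * (φ ((g ^ (D * l))⁻¹ * g ^ (D * k)) - p)‖ ≤
      ε * K * ∑ k ∈ range K, ‖c k‖ ^ 2 := by
  classical
  set E : ℕ → ℕ → ℂ := fun k l => φ ((g ^ (D * l))⁻¹ * g ^ (D * k)) - p with hE
  set s : ℝ := ∑ k ∈ range K, ‖c k‖ ^ 2 with hs
  have hs0 : 0 ≤ s := by positivity
  have hK0 : (0 : ℝ) ≤ K := Nat.cast_nonneg K
  have hF : ∑ x ∈ range K ×ˢ range K, ‖E x.1 x.2‖ ^ 2 ≤ (ε * K) ^ 2 := by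
    rw [Finset.sum_product_right]
    have hrow : ∀ l ∈ range K, ∑ k ∈ range K, ‖E k l‖ ^ 2 ≤ 2 * (δ * K) := by
      intro l hl
      have e : ∀ k, ‖E k l‖ ^ 2 = if l ≤ k then ‖φ (g ^ (D * (k - l))) - p‖ ^ 2
          else ‖φ (g ^ (D * (l - k))) - p‖ ^ 2 := by
        intro k
        rw [hE]
        simp only
        rw [norm_diff h h1]
        split_ifs <;> rfl
      simp_rw [e]
      refine (row_le (fun n => ‖φ (g ^ (D * n)) - p‖ ^ 2) (fun _ => by positivity) K l
        (mem_range.1 hl)).trans ?_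
      linarith
    refine (Finset.sum_le_sum hrow).trans ?_
    rw [Finset.sum_const, card_range, nsmul_eq_mul]
    nlinarith [mul_nonneg hK0 hK0]
  have hc : ∑ x ∈ range K ×ˢ range K, (‖c x.2‖ * ‖c x.1‖) ^ 2 = s ^ 2 := by
    rw [Finset.sum_product, hs, sq, Finset.sum_mul]
    refine Finset.sum_congr rfl fun k _ => ?_
    rw [Finset.mul_sum]
    refine Finset.sum_congr rfl fun l _ => ?_
    ring
  have h2 : ‖∑ k ∈ range K, ∑ l ∈ range K, star (c l) * c k * E k l‖ ≤
      ∑ x ∈ range K ×ˢ range K, (‖c x.2‖ * ‖c x.1‖) * ‖E x.1 x.2‖ := by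
    rw [Finset.sum_product]
    refine (norm_sum_le _ _).trans (Finset.sum_le_sum fun k _ => ?_)
    refine (norm_sum_le _ _).trans (Finset.sum_le_sum fun l _ => ?_)
    rw [norm_mul, norm_mul, norm_star]
  have h3 := Finset.sum_mul_sq_le_sq_mul_sq (range K ×ˢ range K)
    (fun x => ‖c x.2‖ * ‖c x.1‖) (fun x => ‖E x.1 x.2‖)
  have h4 : (∑ x ∈ range K ×ˢ range K, (‖c x.2‖ * ‖c x.1‖) * ‖E x.1 x.2‖) ^ 2 ≤
      (ε * K * s) ^ 2 := by
    refine h3.trans ?_
    rw [hc]
    calc s ^ 2 * ∑ x ∈ range K ×ˢ range K, ‖E x.1 x.2‖ ^ 2 ≤ s ^ 2 * (ε * K) ^ 2 := by gcongr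
      _ = (ε * K * s) ^ 2 := by ring
  exact h2.trans (abs_le_of_sq_le_sq' h4 (by positivity)).2

/-- from the matrix to the values of the form `φ (x g ^ (D k) y)` -/
lemma values_le {H : Type*} [Group H] {φ : H → ℂ} (h : Pool.Agent.W763.Tr.PD φ) (h1 : φ 1 = 1)
    (hcl : ∀ g h : H, φ (h * g * h⁻¹) = φ g) (g : H) (D K : ℕ) (p ε : ℝ) (hε : 0 ≤ ε)
    (hM : ∀ c : ℕ → ℂ, ‖∑ k ∈ range K, ∑ l ∈ range K,
      star (c l) * c k * (φ ((g ^ (D * l))⁻¹ * g ^ (D * k)) - p)‖ ≤
      ε * K * ∑ k ∈ range K, ‖c k‖ ^ 2) (x y : H) :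
    ∃ m : ℂ, ∑ k ∈ range K, ‖φ (x * g ^ (D * k) * y) - m‖ ^ 2 ≤ ε * K := by
  classical
  rcases Nat.eq_zero_or_pos K with rfl | hK
  · exact ⟨0, by simp⟩
  have hKc : (K : ℂ) ≠ 0 := by exact_mod_cast hK.ne'
  set a : ℕ → ℂ := fun k => φ (x * g ^ (D * k) * y) with ha
  set m : ℂ := (K : ℂ)⁻¹ * ∑ k ∈ range K, a k with hm
  refine ⟨m, ?_⟩
  have ha2 : ∀ k, a k = φ (y * x * g ^ (D * k)) := by
    intro k
    rw [ha]
    simp only
    rw [← hcl (x * g ^ (D * k) * y) y]
    congr 1
    group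
  set c : ℕ → ℂ := fun k => star (a k - m) with hc
  have hc0 : ∑ k ∈ range K, c k = 0 := by
    rw [hc]
    simp only
    rw [← star_sum, Finset.sum_sub_distrib, Finset.sum_const, card_range, nsmul_eq_mul, hm,
      mul_inv_cancel_left₀ hKc, sub_self, star_zero]
  set V : ℝ := ∑ k ∈ range K, ‖a k - m‖ ^ 2 with hV
  have hV0 : 0 ≤ V := by positivity
  have hcV : ∑ k ∈ range K, ‖c k‖ ^ 2 = V := by
    rw [hV]
    refine Finset.sum_congr rfl fun k _ => ?_
    rw [hc]
    simp only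
    rw [norm_star]
  have hS : ∑ k ∈ range K, c k * φ (y * x * g ^ (D * k)) = (V : ℂ) := by
    have e1 : ∑ k ∈ range K, c k * φ (y * x * g ^ (D * k)) =
        ∑ k ∈ range K, c k * (a k - m) + (∑ k ∈ range K, c k) * m := by
      rw [Finset.sum_mul, ← Finset.sum_add_distrib]
      refine Finset.sum_congr rfl fun k _ => ?_
      rw [← ha2]
      ring
    rw [e1, hc0, zero_mul, add_zero, hV, Complex.ofReal_sum]
    refine Finset.sum_congr rfl fun k _ => ?_
    rw [hc]
    simp only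
    rw [mul_comm, Complex.star_def, Complex.mul_conj, Complex.normSq_eq_norm_sq]
  have h2 := cauchy_schwarz h h1 K (fun k => g ^ (D * k)) (y * x) c
  rw [hS, Complex.norm_real, Real.norm_of_nonneg hV0] at h2
  have h3 : ∑ k ∈ range K, ∑ l ∈ range K, star (c l) * c k * φ ((g ^ (D * l))⁻¹ * g ^ (D * k)) =
      ∑ k ∈ range K, ∑ l ∈ range K,
        star (c l) * c k * (φ ((g ^ (D * l))⁻¹ * g ^ (D * k)) - p) := by
    have e1 : ∑ k ∈ range K, ∑ l ∈ range K, star (c l) * c k * (p : ℂ) = 0 := by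
      have : ∀ k, ∑ l ∈ range K, star (c l) * c k * (p : ℂ) =
          star (∑ l ∈ range K, c l) * c k * p := by
        intro k
        rw [star_sum, Finset.sum_mul, Finset.sum_mul]
      simp_rw [this, hc0, star_zero, zero_mul]
      simp
    have e2 : ∀ k, ∑ l ∈ range K,
        star (c l) * c k * (φ ((g ^ (D * l))⁻¹ * g ^ (D * k)) - p) =
        ∑ l ∈ range K, star (c l) * c k * φ ((g ^ (D * l))⁻¹ * g ^ (D * k)) -
          ∑ l ∈ range K, star (c l) * c k * (p : ℂ) := by
      intro k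
      rw [← Finset.sum_sub_distrib]
      refine Finset.sum_congr rfl fun l _ => ?_
      ring
    simp_rw [e2]
    rw [Finset.sum_sub_distrib, e1, sub_zero]
  rw [h3] at h2
  have h4 := hM c
  rw [hcV] at h4
  have h5 := (Complex.re_le_norm _).trans h4
  have h6 : V ^ 2 ≤ ε * K * V := h2.trans h5
  have h7 : 0 ≤ ε * K := by positivity
  rcases hV0.eq_or_lt with h8 | h8
  · rw [← h8]
    exact h7
  · have h9 : V * V ≤ ε * K * V := by rw [← sq]; exact h6
    exact le_of_mul_le_mul_right h9 h8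

/-! ### The measure -/

open Run7.h88 in
lemma map_inv_z {μ : Measure UnitAddCircle} [IsProbabilityMeasure μ] (h : Inv μ) (m : ℤ) :
    Inv (Measure.map (fun x : UnitAddCircle => m • x) μ) := by
  have key : ∀ r : ℕ, MeasurePreserving (fun x : UnitAddCircle => r • x) μ μ →
      MeasurePreserving (fun x : UnitAddCircle => r • x)
        (Measure.map (fun x : UnitAddCircle => m • x) μ)
        (Measure.map (fun x : UnitAddCircle => m • x) μ) := by
    intro r hr
    refine ⟨smul_meas r, ?_⟩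
    rw [Measure.map_map (smul_meas r) (zsmul_meas m)]
    conv_rhs => rw [← hr.map_eq, Measure.map_map (zsmul_meas m) (smul_meas r)]
    congr 1
    funext x
    simp only [Function.comp]
    rw [smul_comm]
  exact ⟨key 2 h.1, key 3 h.2⟩

/-- **The values of the tracial states on the powers of a translation.**
For every `ε > 0` there are `D₀` and `K₀` such that for every tracial state `φ` of `C*(G)` (extreme or
not) and every translation `g` in `G` there are an integer `1 ≤ D ≤ D₀` and a decreasing function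
`p` with values between `0` and `1`, such that for every `K ≥ K₀`
(i) `p K ≤ p (K ^ 2) + ε`;
(ii) the mean of `|φ (g ^ (D k)) - p K| ^ 2` over `k < K` is at most `ε`;
(iii) the matrix `(φ (g ^ (-D l) g ^ (D k)))_(k, l < K)` differs from `p K` times the matrix with
entries `1` by a matrix of norm at most `ε K` (so it has at most one eigenvalue larger than `ε K`);
(iv) for all `x, y` in `G` the values `φ (x g ^ (D k) y)`, `k < K`, are close to a constant `m`: the
mean of `|φ (x g ^ (D k) y) - m| ^ 2` over `k < K` is at most `ε`.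
(v) If `g ≠ 1` and `φ` is extreme and not conditionally finite-dimensional, then `p K` tends to `0`. -/
theorem result (s2 s3 t : Equiv.Perm ℚ) (h2 : ∀ x : ℚ, s2 x = 2 * x) (h3 : ∀ x : ℚ, s3 x = 3 * x)
    (ht : ∀ x : ℚ, t x = x + 1) (G : Subgroup (Equiv.Perm ℚ))
    (hG : G = Subgroup.closure {s2, s3, t}) (ε : ℝ) (hε : 0 < ε) :
    ∃ D₀ K₀ : ℕ, ∀ φ ∈ TracialStates G, ∀ g : G, IsTranslation g →
      ∃ (D : ℕ) (p : ℕ → ℝ), 1 ≤ D ∧ D ≤ D₀ ∧ Antitone p ∧ (∀ K, 0 ≤ p K ∧ p K ≤ 1) ∧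
        (∀ K : ℕ, K₀ ≤ K →
          p K ≤ p (K ^ 2) + ε ∧
          ∑ k ∈ range K, ‖φ (g ^ (D * k)) - p K‖ ^ 2 ≤ ε * K ∧
          (∀ c : ℕ → ℂ, ‖∑ k ∈ range K, ∑ l ∈ range K,
            star (c l) * c k * (φ ((g ^ (D * l))⁻¹ * g ^ (D * k)) - p K)‖ ≤
              ε * K * ∑ k ∈ range K, ‖c k‖ ^ 2) ∧
          ∀ x y : G, ∃ m : ℂ, ∑ k ∈ range K, ‖φ (x * g ^ (D * k) * y) - m‖ ^ 2 ≤ ε * K) ∧
        (g ≠ 1 → φ ∈ Set.extremePoints ℝ (TracialStates G) → ¬ CondFiniteDim φ →
          Tendsto p atTop (𝓝 0)) := by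
  classical
  set δ : ℝ := min ε (ε ^ 2 / 2) with hδdef
  have hδ : 0 < δ := by positivity
  have hδ1 : δ ≤ ε := min_le_left _ _
  have hδ2 : 2 * δ ≤ ε ^ 2 := by
    have := min_le_right ε (ε ^ 2 / 2)
    linarith
  obtain ⟨D₀, K₀, hK₀, H⟩ := Run7.h88.spectral hδ
  refine ⟨D₀, K₀, fun φ hφ g hg => ?_⟩
  obtain ⟨hφ1, hcl, hpd⟩ := hφ
  obtain ⟨r, hr⟩ := hg
  obtain ⟨τ, S6, μ, Dt⟩ := Pool.Agent.TH654.FC.data_of h2 h3 ht hG hφ1 hcl hpd
  have hμp := Dt.prob
  obtain ⟨m, hm0, hpow⟩ : ∃ m : ℤ, (g ≠ 1 → m ≠ 0) ∧ ∀ n : ℕ, φ (g ^ n) = φ (τ (m * n)) := by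
    by_cases hg1 : g = 1
    · obtain ⟨m, hm⟩ := Dt.pow hr
      exact ⟨m, fun h => absurd hg1 h, hm⟩
    · obtain ⟨m, hm0, hm⟩ := Pool.Agent.TH463.UQ.pow' Dt hg1 hr
      exact ⟨m, fun _ => hm0, hm⟩
  set ν : Measure UnitAddCircle := Measure.map (fun x : UnitAddCircle => m • x) μ with hν
  have hνp : IsProbabilityMeasure ν :=
    Measure.isProbabilityMeasure_map (Run7.h88.zsmul_meas m).aemeasurable
  have hνi : Run7.h88.Inv ν := map_inv_z ⟨Dt.mp2, Dt.mp3⟩ m
  have hfc : ∀ n : ℕ, ∫ x, (fourier (n : ℤ) x : ℂ) ∂ν = φ (g ^ n) := by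
    intro n
    rw [hν, integral_map (Run7.h88.zsmul_meas m).aemeasurable
      (Run7.h88.cont_fourier _).aestronglyMeasurable]
    simp_rw [Run7.h88.fourier_smul]
    rw [Dt.hμ, hpow, mul_comm]
  obtain ⟨D, hD1, hD2, HD⟩ := H ν hνp hνi
  set p : ℕ → ℝ := fun K => ν.real {x : UnitAddCircle | (K : ℝ) * ‖D • x‖ ≤ 1} with hp
  have hpn : ∀ K : ℕ, 1 ≤ K → p K = ν.real (Run7.h88.near D K) := by
    intro K hK
    have hKpos : (0 : ℝ) < K := by exact_mod_cast hK
    rw [hp]
    simp only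
    congr 1
    ext x
    show (K : ℝ) * ‖D • x‖ ≤ 1 ↔ ‖D • x‖ ≤ 1 / K
    rw [le_div_iff₀ hKpos, mul_comm]
  refine ⟨D, p, hD1, hD2, ?_, fun K => ⟨measureReal_nonneg, measureReal_le_one⟩, fun K hK => ?_, ?_⟩
  · intro a b hab
    refine measureReal_mono ?_ (measure_ne_top _ _)
    intro x hx
    have hx' : (b : ℝ) * ‖D • x‖ ≤ 1 := hx
    show (a : ℝ) * ‖D • x‖ ≤ 1
    refine le_trans ?_ hx'
    have : (a : ℝ) ≤ b := by exact_mod_cast hab
    gcongr
  · have hK1 : 1 ≤ K := hK₀.trans hK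
    have hK0 : (0 : ℝ) ≤ K := Nat.cast_nonneg K
    obtain ⟨ha, hb, -⟩ := HD K hK
    rw [← hpn K hK1, ← hpn (K ^ 2) (Nat.one_le_pow _ _ hK1)] at ha
    have hb' : ∑ k ∈ range K, ‖φ (g ^ (D * k)) - p K‖ ^ 2 ≤ δ * K := by
      refine le_trans (le_of_eq ?_) hb
      refine Finset.sum_congr rfl fun k _ => ?_
      rw [hpn K hK1, ← hfc]
      push_cast
      rfl
    have hM := matrix_le hpd hφ1 g D K (p K) ε δ hε.le hδ2 hb'
    refine ⟨ha.trans (by linarith), hb'.trans (mul_le_mul_of_nonneg_right hδ1 hK0), hM, ?_⟩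
    exact values_le hpd hφ1 hcl g D K (p K) ε hε.le hM
  · intro hg1 hext hfd
    have hat : ∀ x, μ {x} = 0 := by
      rcases Pool.Agent.TH463.UQ.finite_or_atomless Dt hext with h | h
      · exact absurd h hfd
      · exact h
    have h4 := Run7.h88.near_tend (μ := ν) D
    have h5 : ν.real {x | D • x = 0} = 0 := by
      have hDm : MeasurableSet {x : UnitAddCircle | D • x = 0} :=
        (isClosed_eq (by fun_prop) continuous_const).measurableSet
      rw [hν, map_measureReal_apply (Run7.h88.zsmul_meas m) hDm]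
      have hnull : NullSingletonClass μ := ⟨hat⟩
      have hfin : {x : UnitAddCircle | (D * m.natAbs) • x = 0}.Finite :=
        Pool.Agent.Y139.GR.finite_fiber (d := D * m.natAbs) (by
          have : m.natAbs ≠ 0 := by
            rw [Int.natAbs_ne_zero]
            exact hm0 hg1
          exact Nat.one_le_iff_ne_zero.2 (Nat.mul_ne_zero (by omega) this)) 0
      have hsub : (fun x : UnitAddCircle => m • x) ⁻¹' {x | D • x = 0} ⊆
          {x : UnitAddCircle | (D * m.natAbs) • x = 0} := by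
        intro x hx
        have hx' : D • (m • x) = 0 := hx
        show (D * m.natAbs) • x = 0
        rcases Int.natAbs_eq m with h | h
        · rw [h, natCast_zsmul] at hx'
          rwa [mul_smul]
        · rw [h, neg_smul, smul_neg, neg_eq_zero, natCast_zsmul] at hx'
          rwa [mul_smul]
      rw [measureReal_def, measure_mono_null hsub (hfin.measure_zero μ)]
      rfl
    rw [h5] at h4
    refine h4.congr' ?_
    filter_upwards [eventually_ge_atTop 1] with K hK
    exact (hpn K hK).symm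

end Pool.Agent.Results.MP_81910f_an.NearlyConstantValues
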