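import Pool.Agent.Run7.h303.TR.Hull

/-!
# One element of the group algebra decides the dichotomy for `C*(ℤ² ⋉ ℤ[1/6])`

Let `G` be the group generated by `x ↦ 2 x`, `x ↦ 3 x`, `x ↦ x + 1` on `ℚ`, a copy of
`ℤ² ⋉ ℤ[1/6]`.  The tracial states of `C*(G)` are the normalised positive definite class functions
on `G` (the set `T`).  Let `u` be the translation by `1` and `Δ` the regular trace.  If the dichotomy
of the problem fails, then the extreme traces which are not conditionally finite-dimensional satisfy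
no one-sided linear inequality besides the trivial ones.
-/

set_option autoImplicit false

open Filter Topology
open scoped ComplexOrder

namespace Pool.Agent.Results.MP_81910f_an.OneElement

variable {G : Subgroup (Equiv.Perm ℚ)}

/-- `g` is a translation. -/
def Translation (g : G) : Prop := ∃ r : ℚ, ∀ x : ℚ, (g : Equiv.Perm ℚ) x = x + r

/-- Conditional finite dimension: the functions `x ↦ φ (n x)`, `n` a translation, span a
finite-dimensional space. -/
def CondFin (φ : G → ℂ) : Prop :=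
  FiniteDimensional ℂ (Submodule.span ℂ {F : G → ℂ | ∃ n : G, Translation n ∧ F = fun x => φ (n * x)})

/-- The regular trace. -/
noncomputable def Delta (G : Subgroup (Equiv.Perm ℚ)) : G → ℂ :=
  Set.indicator ({1} : Set G) (fun _ => (1 : ℂ))

/-- `ψ (u ^ (L m)) = φ (u ^ (k m))` for all `m`, for some `L, k ≥ 1`. -/
def Related (u : G) (φ ψ : G → ℂ) : Prop :=
  ∃ L k : ℕ, 1 ≤ L ∧ 1 ≤ k ∧ ∀ m : ℤ, ψ (u ^ ((L : ℤ) * m)) = φ (u ^ ((k : ℤ) * m))

lemma coprime_six {m : ℕ} (h : Nat.Coprime m 6) : ¬ 2 ∣ m ∧ ¬ 3 ∣ m := by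
  constructor
  · intro hd
    have := Nat.dvd_gcd hd (by norm_num : 2 ∣ 6)
    rw [h] at this
    omega
  · intro hd
    have := Nat.dvd_gcd hd (by norm_num : 3 ∣ 6)
    rw [h] at this
    omega

/-- **One element decides.** `T` is the set of the tracial states.

(1) For every finite set `F` of positive integers prime to 6 there is `c > 0` such that for every
extreme `φ ∈ T` which is not conditionally finite-dimensional and every `n ≠ 0` the closed convex
hull of the vectors `(ψ (u ^ m))_{m ∈ F}`, `ψ` extreme, not conditionally finite-dimensional and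
related to `φ`, contains all `z` with `∑ ‖z m‖ ≤ c ‖φ (u ^ n)‖`.

(2) Let `a = ∑_{g ∈ S} a g · g` be any element of the group algebra. The inequality
`Re φ (a) ≥ Re Δ (a)` holds for all extreme `φ ∈ T` which are not conditionally finite-dimensional
if and only if the dichotomy holds or `Re φ (a) = Re Δ (a)` for all the `φ ∈ T` which vanish off the
translations.

(3) Let `g ≠ 1` be a translation and `ω ≠ 0` a complex number. The dichotomy holds if and only if
`Re (ω φ (g)) ≥ 0` for all extreme `φ ∈ T` which are not conditionally finite-dimensional. -/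
theorem result (s2 s3 t : Equiv.Perm ℚ) (hs2 : ∀ x : ℚ, s2 x = 2 * x) (hs3 : ∀ x : ℚ, s3 x = 3 * x)
    (ht : ∀ x : ℚ, t x = x + 1) (G : Subgroup (Equiv.Perm ℚ))
    (hG : G = Subgroup.closure {s2, s3, t}) (T : Set (G → ℂ))
    (hT : T = {ψ : G → ℂ | ψ 1 = 1 ∧ (∀ g h : G, ψ (h * g * h⁻¹) = ψ g) ∧
        ∀ (s : Finset G) (c : G → ℂ), 0 ≤ ∑ i ∈ s, ∑ j ∈ s, star (c j) * c i * ψ (j⁻¹ * i)})
    (u : G) (hu : (u : Equiv.Perm ℚ) = t) :
    (∀ F : Finset ℕ, (∀ m ∈ F, 0 < m ∧ Nat.Coprime m 6) → ∃ c : ℝ, 0 < c ∧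
      ∀ φ ∈ T.extremePoints ℝ, ¬ CondFin φ → ∀ n : ℤ, n ≠ 0 → ∀ z : F → ℂ,
        ∑ m, ‖z m‖ ≤ c * ‖φ (u ^ n)‖ →
        z ∈ closure (convexHull ℝ {v : F → ℂ | ∃ ψ ∈ T.extremePoints ℝ, ¬ CondFin ψ ∧
          Related u φ ψ ∧ v = fun m : F => ψ (u ^ (m : ℕ))})) ∧
    (∀ (S : Finset G) (a : G → ℂ),
      (∀ φ ∈ T.extremePoints ℝ, ¬ CondFin φ →
        (∑ g ∈ S, a g * Delta G g).re ≤ (∑ g ∈ S, a g * φ g).re) ↔
      ((∀ φ ∈ T.extremePoints ℝ, φ = Delta G ∨ CondFin φ) ∨
        ∀ φ ∈ T, (∀ g : G, ¬ Translation g → φ g = 0) →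
          (∑ g ∈ S, a g * φ g).re = (∑ g ∈ S, a g * Delta G g).re)) ∧
    (∀ g : G, g ≠ 1 → Translation g → ∀ ω : ℂ, ω ≠ 0 →
      ((∀ φ ∈ T.extremePoints ℝ, φ = Delta G ∨ CondFin φ) ↔
        ∀ φ ∈ T.extremePoints ℝ, ¬ CondFin φ → 0 ≤ (ω * φ g).re)) := by
  subst hT
  have hux : ∀ x : ℚ, (u : Equiv.Perm ℚ) x = x + 1 := fun x => by rw [hu, ht]
  refine ⟨fun F hF => ⟨Run7.h303.TR.cF F, Run7.h303.TR.cF_pos F, ?_⟩, fun S a => ?_, ?_⟩
  · intro φ hφ hnf n hn z hz
    classical
    set z' : ℕ → ℂ := fun m => if h : m ∈ F then z ⟨m, h⟩ else 0 with hz'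
    have hzz : (fun m : F => z' m) = z := by
      funext m
      simp [hz']
    have h := Run7.h303.TR.hull hs2 hs3 ht hG hux
      (fun m hm => ⟨(hF m hm).1, coprime_six (hF m hm).2⟩) (φ := φ) hφ hnf hn z' (by
        rw [← Finset.sum_coe_sort F]
        refine le_of_eq_of_le (Finset.sum_congr rfl fun m _ => ?_) hz
        rw [← hzz])
    rw [hzz] at h
    exact h
  · classical
    set S₁ := S.filter fun g => Translation g with hS₁
    have hsum : ∀ φ : G → ℂ, (∀ g : G, ¬ Translation g → φ g = 0) →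
        ∑ g ∈ S, a g * φ g = ∑ g ∈ S₁, a g * φ g := by
      intro φ hφ
      rw [hS₁, Finset.sum_filter]
      refine Finset.sum_congr rfl fun g _ => ?_
      split_ifs with hg
      · rfl
      · rw [hφ g hg, mul_zero]
    have hΔ : ∀ g : G, ¬ Translation g → Delta G g = 0 := by
      intro g hg
      have h1 : g ≠ 1 := by
        rintro rfl
        exact hg ⟨0, fun x => by simp⟩
      simp [Delta, h1]
    have hvan : ∀ φ ∈ Set.extremePoints ℝ {ψ : G → ℂ | ψ 1 = 1 ∧
        (∀ g h : G, ψ (h * g * h⁻¹) = ψ g) ∧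
        ∀ (s : Finset G) (c : G → ℂ), 0 ≤ ∑ i ∈ s, ∑ j ∈ s, star (c j) * c i * ψ (j⁻¹ * i)},
        ¬ CondFin φ → ∀ g : G, ¬ Translation g → φ g = 0 := by
      intro φ hφ hnf g hg
      obtain ⟨c1, c2, c3⟩ := hφ.1
      obtain ⟨τ, S6, μ, D⟩ := Pool.Agent.TH654.FC.data_of hs2 hs3 ht hG c1 c2 c3
      exact Pool.Agent.R481.TraceBT.vanish D (Run7.h303.TR.atomless D hφ hnf) g hg
    have h := Run7.h303.TR.one_element hs2 hs3 ht hG hux (S := S₁)
      (fun g hg => (Finset.mem_filter.1 hg).2) a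
    rw [hsum _ hΔ]
    constructor
    · intro h1
      rcases h.1 (fun φ hφ hnf => by
        have h2 := h1 φ hφ hnf
        rwa [hsum φ (hvan φ hφ hnf)] at h2) with h2 | h2
      · exact Or.inl h2
      · right
        intro φ hφ hφ0
        rw [hsum φ hφ0]
        exact h2 φ hφ
    · intro h1 φ hφ hnf
      rw [hsum φ (hvan φ hφ hnf)]
      refine h.2 ?_ φ hφ hnf
      rcases h1 with h1 | h1
      · exact Or.inl h1
      · right
        intro φ' hφ'
        obtain ⟨c1, c2, c3⟩ := hφ'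
        obtain ⟨τ, S6, μ, D⟩ := Pool.Agent.TH654.FC.data_of hs2 hs3 ht hG c1 c2 c3
        have := D.prob
        obtain ⟨φ'', e1, e2, e3, e4, e5⟩ := Pool.Agent.Y253.TR.trace_of_measure hs2 hs3 ht hG μ
          D.mp2 D.mp3
        have heq : ∀ g ∈ S₁, a g * φ' g = a g * φ'' g := by
          intro g hg
          obtain ⟨r, hr⟩ := (Finset.mem_filter.1 hg).2
          obtain ⟨n, k, hrk⟩ := D.six hr
          rw [hrk] at hr
          rw [e4 g n k hr, Pool.Agent.W763.Tr.phi_trans D.hτ D.hcl S6 D.hS6 g n k hr, D.hμ]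
        have h2 := h1 φ'' ⟨e1, e2, e3⟩ e5
        rw [hsum φ'' e5] at h2
        change (∑ g ∈ S₁, a g * φ' g).re = _
        rw [Finset.sum_congr rfl heq]
        exact h2
  · intro g hg1 hg ω hω
    exact Run7.h303.TR.half_plane hs2 hs3 ht hG hux hg1 hg hω

end Pool.Agent.Results.MP_81910f_an.OneElement
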