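import Pool.Agent.Run7.h303.TR.Root

/-!
# Roots of the extreme traces of `C*(ℤ² ⋉ ℤ[1/6])`

Let `G` be the group generated by `x ↦ 2 x`, `x ↦ 3 x`, `x ↦ x + 1` on `ℚ`, a copy of
`ℤ² ⋉ ℤ[1/6]`.  The tracial states of `C*(G)` are the normalised positive definite class functions
on `G` (the set `T`).  Let `u` be the translation by `1`.  A root of order `N` of `φ` is an extreme
point `ψ` of `T` which is not conditionally finite-dimensional and satisfies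
`ψ (u ^ (N k)) = φ (u ^ k)` for all `k`.  The values of the roots satisfy Bessel inequalities which
do not depend on `φ`, and an exotic trace would have roots tending to the regular trace.
-/

set_option autoImplicit false

open Filter Topology
open scoped ComplexOrder

namespace Pool.Agent.Results.MP_81910f_an.RootsOfTraces

variable {G : Subgroup (Equiv.Perm ℚ)}

/-- `g` is a translation. -/
def Translation (g : G) : Prop := ∃ r : ℚ, ∀ x : ℚ, (g : Equiv.Perm ℚ) x = x + r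

/-- Conditional finite dimension: the functions `x ↦ φ (n x)`, `n` a translation, span a
finite-dimensional space. -/
def CondFin (φ : G → ℂ) : Prop :=
  FiniteDimensional ℂ (Submodule.span ℂ {F : G → ℂ | ∃ n : G, Translation n ∧ F = fun x => φ (n * x)})

/-- The regular trace. -/
noncomputable def Delta (G : Subgroup (Equiv.Perm ℚ)) : G → ℂ :=
  Set.indicator ({1} : Set G) (fun _ => (1 : ℂ))

/-- The roots of order `N`. -/
def Roots (T : Set (G → ℂ)) (u : G) (N : ℕ) (φ : G → ℂ) : Set (G → ℂ) :=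
  {ψ | ψ ∈ T.extremePoints ℝ ∧ ¬ CondFin ψ ∧ ∀ k : ℤ, ψ (u ^ ((N : ℤ) * k)) = φ (u ^ k)}

/-- The number of the residue classes modulo `n` of the numbers `2 ^ i 3 ^ j`. -/
noncomputable def cls (n : ℕ) : ℕ :=
  (Set.range fun p : ℕ × ℕ => ((2 ^ p.1 * 3 ^ p.2 : ℕ) : ZMod n)).ncard

/-- **Roots of traces.** `T` is the set of the tracial states.

(1) Let `N, m ≥ 1`. If a convex combination `∑ s i ψ i` of tracial states vanishes at the powers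
`u ^ j`, `N ∤ j`, then `∑ s i |ψ i (u ^ m)| ^ 2 ≤ 1 / cls (N / gcd (N, m))`.

(2) Let `N, m ≥ 1`, `φ` any function and `S` a finite set of roots of `φ` of order `N`. Then `S`
has at most `N` elements and `∑_{ψ ∈ S} |ψ (u ^ m)| ^ 2 ≤ N / cls (N / gcd (N, m))`.

(3) Let `R` be prime to 6. There is `C > 0` such that for all `k`:
`∑_{ψ ∈ S} |ψ (u ^ m)| ^ 2 ≤ C gcd (R ^ k, m)` for every `m ≥ 1`, every `φ` and every finite set `S`
of roots of `φ` of order `R ^ k`; and every extreme `φ ∈ T` which is not conditionally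
finite-dimensional has a root `ψ` of order `R ^ k` with `|ψ (u ^ m)| ^ 2 ≤ C m ^ 3 / R ^ k` for all
`m ≥ 1`.

(4) The dichotomy holds if and only if the regular trace is isolated: there are `ε > 0` and a
finite set `F` of elements `g ≠ 1` of `G` such that the regular trace is the only extreme `φ ∈ T`
which is not conditionally finite-dimensional and satisfies `|φ (g)| ≤ ε` for all `g ∈ F`. -/
theorem result (s2 s3 t : Equiv.Perm ℚ) (hs2 : ∀ x : ℚ, s2 x = 2 * x) (hs3 : ∀ x : ℚ, s3 x = 3 * x)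
    (ht : ∀ x : ℚ, t x = x + 1) (G : Subgroup (Equiv.Perm ℚ))
    (hG : G = Subgroup.closure {s2, s3, t}) (T : Set (G → ℂ))
    (hT : T = {ψ : G → ℂ | ψ 1 = 1 ∧ (∀ g h : G, ψ (h * g * h⁻¹) = ψ g) ∧
        ∀ (s : Finset G) (c : G → ℂ), 0 ≤ ∑ i ∈ s, ∑ j ∈ s, star (c j) * c i * ψ (j⁻¹ * i)})
    (u : G) (hu : (u : Equiv.Perm ℚ) = t) :
    (∀ N m : ℕ, N ≠ 0 → m ≠ 0 → ∀ (n : ℕ) (s : Fin n → ℝ) (ψ : Fin n → G → ℂ),
      (∀ i, 0 ≤ s i) → ∑ i, s i = 1 → (∀ i, ψ i ∈ T) →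
      (∀ j : ℤ, ¬ (N : ℤ) ∣ j → ∑ i, (s i : ℂ) * ψ i (u ^ j) = 0) →
      ∑ i, s i * ‖ψ i (u ^ m)‖ ^ 2 ≤ 1 / cls (N / N.gcd m)) ∧
    (∀ N m : ℕ, N ≠ 0 → m ≠ 0 → ∀ (φ : G → ℂ) (S : Finset (G → ℂ)), (S : Set (G → ℂ)) ⊆ Roots T u N φ →
      S.card ≤ N ∧ ∑ ψ ∈ S, ‖ψ (u ^ m)‖ ^ 2 ≤ N / cls (N / N.gcd m)) ∧
    (∀ R : ℕ, Nat.Coprime R 6 → ∃ C : ℝ, 0 < C ∧ ∀ k : ℕ,
      (∀ m : ℕ, m ≠ 0 → ∀ (φ : G → ℂ) (S : Finset (G → ℂ)),
        (S : Set (G → ℂ)) ⊆ Roots T u (R ^ k) φ →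
        ∑ ψ ∈ S, ‖ψ (u ^ m)‖ ^ 2 ≤ C * (R ^ k).gcd m) ∧
      ∀ φ ∈ T.extremePoints ℝ, ¬ CondFin φ → ∃ ψ ∈ Roots T u (R ^ k) φ,
        ∀ m : ℕ, m ≠ 0 → ‖ψ (u ^ m)‖ ^ 2 ≤ C * (m : ℝ) ^ 3 / (R : ℝ) ^ k) ∧
    ((∀ φ ∈ T.extremePoints ℝ, φ = Delta G ∨ CondFin φ) ↔
      ∃ (F : Finset G) (ε : ℝ), 0 < ε ∧ (∀ g ∈ F, g ≠ 1) ∧
        ∀ φ ∈ T.extremePoints ℝ, ¬ CondFin φ → (∀ g ∈ F, ‖φ g‖ ≤ ε) → φ = Delta G) := by
  subst hT
  have hux : ∀ x : ℚ, (u : Equiv.Perm ℚ) x = x + 1 := fun x => by rw [hu, ht]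
  refine ⟨fun N m hN hm n s ψ hs0 hs1 hψ h => ?_, fun N m hN hm φ S hS => ⟨?_, ?_⟩, fun R hR => ?_, ?_⟩
  · exact Run7.h303.TR.mass hs2 hs3 ht hG hux hN Finset.univ s ψ (fun i _ => hψ i)
      (fun i _ => hs0 i) hs1 h (Nat.pos_of_ne_zero hm)
  · exact Run7.h303.TR.card_roots hs2 hs3 ht hG hux hN φ S fun ψ hψ => hS hψ
  · exact Run7.h303.TR.bessel hs2 hs3 ht hG hux hN φ S (fun ψ hψ => hS hψ) (Nat.pos_of_ne_zero hm)
  · obtain ⟨C, hC0, hC⟩ := Run7.h303.TR.cls_ge hR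
    have hR0 : R ≠ 0 := by
      rintro rfl
      norm_num at hR
    have hC1 : (1 : ℝ) ≤ C := by exact_mod_cast hC0
    refine ⟨2 * C, by linarith, fun k => ⟨fun m hm φ S hS => ?_, fun φ hφ hnf => ?_⟩⟩
    · have hN0 : R ^ k ≠ 0 := pow_ne_zero _ hR0
      have h1 := Run7.h303.TR.bessel hs2 hs3 ht hG hux hN0 φ S (fun ψ hψ => hS hψ)
        (Nat.pos_of_ne_zero hm)
      have h2 := Run7.h303.TR.quot_le hR0 hC k (Nat.pos_of_ne_zero hm)
      have h3 : (0 : ℝ) < ((R ^ k : ℕ) : ℝ) := by exact_mod_cast Nat.pos_of_ne_zero hN0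
      have h4 := mul_le_mul_of_nonneg_left h2 h3.le
      have h5 : ((R ^ k : ℕ) : ℝ) * (C * ((R ^ k).gcd m) / (R ^ k : ℕ)) = C * (R ^ k).gcd m := by
        field_simp
      have h6 : ((R ^ k : ℕ) : ℝ) * (1 / Run7.h303.TR.cls (R ^ k / (R ^ k).gcd m)) =
          (R ^ k : ℕ) / Run7.h303.TR.cls (R ^ k / (R ^ k).gcd m) := by ring
      rw [h5, h6] at h4
      have h7 : (C : ℝ) * (R ^ k).gcd m ≤ 2 * C * (R ^ k).gcd m := by
        have : (0 : ℝ) ≤ C * (R ^ k).gcd m := by positivity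
        linarith
      exact h1.trans (h4.trans h7)
    · obtain ⟨ψ, e1, e2, e3, e4⟩ := Run7.h303.TR.small_root_pow hs2 hs3 ht hG hux hR hC0 hC k
        hφ hnf
      exact ⟨ψ, ⟨e1, e2, e3⟩, fun m hm => e4 m (Nat.pos_of_ne_zero hm)⟩
  · exact Run7.h303.TR.isolated hs2 hs3 ht hG hux

end Pool.Agent.Results.MP_81910f_an.RootsOfTraces
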