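import Pool.Agent.Run7.h303.TE.Appr

/-!
# Totally extreme traces of `C*(ℤ² ⋉ ℤ[1/6])`

Let `G` be the group generated by `x ↦ 2 x`, `x ↦ 3 x`, `x ↦ x + 1` on `ℚ`, a copy of
`ℤ² ⋉ ℤ[1/6]`.  The tracial states of `C*(G)` are the normalised positive definite class functions
on `G` (the set `T`).  Let `u` be the translation by `1`.  An extreme trace `φ` which is not
conditionally finite-dimensional is called totally extreme if the state `m ↦ φ (u ^ m)` of `C*(ℤ)`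
is an extreme point of the set of the states invariant under the multiplications by `2 ^ k` and
`3 ^ k`, for every `k ≥ 1` (for `k = 1` this holds for every extreme trace).  The positive rational
numbers act on the totally extreme traces, which are the nontrivial totally extreme invariant states
of `C*(ℚ)`; all extreme roots of a totally extreme trace are described, and the `n` for which `u` is
a limit of polynomials in `u ^ n`.
-/

set_option autoImplicit false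

open Filter Topology
open scoped ComplexOrder

namespace Pool.Agent.Results.MP_81910f_an.TotallyExtremeTraces

variable {G : Subgroup (Equiv.Perm ℚ)}

/-- `g` is a translation. -/
def Translation (g : G) : Prop := ∃ r : ℚ, ∀ x : ℚ, (g : Equiv.Perm ℚ) x = x + r

/-- Conditional finite dimension: the functions `x ↦ φ (n x)`, `n` a translation, span a
finite-dimensional space. -/
def CondFin (φ : G → ℂ) : Prop :=
  FiniteDimensional ℂ (Submodule.span ℂ {F : G → ℂ | ∃ n : G, Translation n ∧ F = fun x => φ (n * x)})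

/-- The regular trace. -/
noncomputable def Delta (G : Subgroup (Equiv.Perm ℚ)) : G → ℂ :=
  Set.indicator ({1} : Set G) (fun _ => (1 : ℂ))

/-- The states of `C*(A)`, `A` an abelian group, invariant under the multiplications by `2 ^ k` and
`3 ^ k`. -/
def States (A : Type) [AddCommGroup A] (k : ℕ) : Set (A → ℂ) :=
  {f | f 0 = 1 ∧
    (∀ (N : ℕ) (x : Fin N → A) (c : Fin N → ℂ), 0 ≤ ∑ i, ∑ j, star (c j) * c i * f (x i - x j)) ∧
    (∀ a, f ((2 ^ k) • a) = f a) ∧ ∀ a, f ((3 ^ k) • a) = f a}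

/-- The functions which are extreme points of `States A k` for every `k ≥ 1`. -/
def TotallyExtreme (A : Type) [AddCommGroup A] : Set (A → ℂ) :=
  {f | ∀ k : ℕ, 1 ≤ k → f ∈ (States A k).extremePoints ℝ}

/-- The totally extreme traces. -/
def Tot (T : Set (G → ℂ)) (u : G) : Set (G → ℂ) :=
  {φ | φ ∈ T.extremePoints ℝ ∧ ¬ CondFin φ ∧ (fun m : ℤ => φ (u ^ m)) ∈ TotallyExtreme ℤ}

/-- `K ^ (-2) ∑_{i, j < K} e (m 2 ^ i 3 ^ j k / n)`. -/
noncomputable def orbitSum (n K k : ℕ) (m : ℤ) : ℂ :=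
  ((K : ℂ) ^ 2)⁻¹ * ∑ i ∈ Finset.range K, ∑ j ∈ Finset.range K,
    Complex.exp (2 * Real.pi * Complex.I * (m * (2 ^ i * 3 ^ j * k) / n))

/-- `φ ((u - P)* (u - P))` for `P = ∑_{k ∈ s} c k u ^ (n k)`. -/
noncomputable def distSq (φ : G → ℂ) (u : G) (n : ℕ) (s : Finset ℤ) (c : ℤ → ℂ) : ℝ :=
  (1 - 2 * ∑ k ∈ s, star (c k) * φ (u ^ (1 - n * k)) +
    ∑ k ∈ s, ∑ l ∈ s, star (c k) * c l * φ (u ^ ((n : ℤ) * (l - k)))).re

/-- **Totally extreme traces.** `T` is the set of the tracial states.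

(1) Let `φ` be a totally extreme trace and `k, n ≥ 1`. There is exactly one totally extreme trace `ψ`
with `ψ (u ^ (n m)) = φ (u ^ (k m))` for all `m`.

(2) For every totally extreme trace `φ` there is exactly one totally extreme function `F` on `ℚ` with
`F m = φ (u ^ m)` for all integers `m`, and `F ≠ 1`. For every totally extreme function `F ≠ 1` on
`ℚ` there is exactly one totally extreme trace `φ` with `φ (u ^ m) = F m` for all integers `m`.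

(3) Let `ψ` be a totally extreme trace. There is an `N ≥ 0` such that the `m` with `ψ (u ^ m) ≠ 0`
generate the subgroup `N ℤ` of `ℤ`, and:

(3a) if `ψ` is not the regular trace then `N ≥ 1` and `N` is prime to `6`;

(3b) if `n | 2 ^ K - 1`, `n | 3 ^ K - 1`, `n, K ≥ 1`, then there are extreme traces `ψ_k`, `k ≥ 0`,
not conditionally finite-dimensional, with `ψ_k (u ^ m) = ψ (u ^ m) K ^ (-2) ∑_{i, j < K}
e (m 2 ^ i 3 ^ j k / n)`, such that the `ψ_k` are all the extreme traces `ψ'` which are not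
conditionally finite-dimensional and satisfy `ψ' (u ^ (n m)) = ψ (u ^ (n m))` for all `m`, and
`ψ_k = ψ_l` if and only if `k = 2 ^ i 3 ^ j l` modulo `n / gcd (n, N)` for some `i, j`;

(3c) let `n ≥ 1`. If `n` is prime to `N` then for every `ε > 0` there is a Laurent polynomial `P` in
`u ^ n` with `ψ ((u - P)* (u - P)) < ε`; if not then `ψ ((u - P)* (u - P)) ≥ 1` for all these
`P`. -/
theorem result (s2 s3 t : Equiv.Perm ℚ) (hs2 : ∀ x : ℚ, s2 x = 2 * x) (hs3 : ∀ x : ℚ, s3 x = 3 * x)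
    (ht : ∀ x : ℚ, t x = x + 1) (G : Subgroup (Equiv.Perm ℚ))
    (hG : G = Subgroup.closure {s2, s3, t}) (T : Set (G → ℂ))
    (hT : T = {ψ : G → ℂ | ψ 1 = 1 ∧ (∀ g h : G, ψ (h * g * h⁻¹) = ψ g) ∧
        ∀ (s : Finset G) (c : G → ℂ), 0 ≤ ∑ i ∈ s, ∑ j ∈ s, star (c j) * c i * ψ (j⁻¹ * i)})
    (u : G) (hu : (u : Equiv.Perm ℚ) = t) :
    (∀ φ ∈ Tot T u, ∀ k n : ℕ, k ≠ 0 → n ≠ 0 →
      ∃! ψ, ψ ∈ Tot T u ∧ ∀ m : ℤ, ψ (u ^ ((n : ℤ) * m)) = φ (u ^ ((k : ℤ) * m))) ∧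
    (∀ φ ∈ Tot T u, ∃! F, F ∈ TotallyExtreme ℚ ∧ F ≠ (fun _ => 1) ∧ ∀ m : ℤ, F m = φ (u ^ m)) ∧
    (∀ F ∈ TotallyExtreme ℚ, F ≠ (fun _ => 1) → ∃! φ, φ ∈ Tot T u ∧ ∀ m : ℤ, φ (u ^ m) = F m) ∧
    (∀ ψ ∈ Tot T u, ∃ N : ℕ,
      AddSubgroup.closure {m : ℤ | ψ (u ^ m) ≠ 0} = AddSubgroup.zmultiples (N : ℤ) ∧
      (ψ ≠ Delta G → N ≠ 0 ∧ Nat.Coprime N 6) ∧
      (∀ n K : ℕ, n ≠ 0 → 1 ≤ K → 2 ^ K ≡ 1 [MOD n] → 3 ^ K ≡ 1 [MOD n] →
        ∃ lift : ℕ → G → ℂ,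
          (∀ k, lift k ∈ T.extremePoints ℝ ∧ ¬ CondFin (lift k) ∧
            (∀ m : ℤ, lift k (u ^ ((n : ℤ) * m)) = ψ (u ^ ((n : ℤ) * m))) ∧
            ∀ m : ℤ, lift k (u ^ m) = ψ (u ^ m) * orbitSum n K k m) ∧
          (∀ ψ' ∈ T.extremePoints ℝ, ¬ CondFin ψ' →
            (∀ m : ℤ, ψ' (u ^ ((n : ℤ) * m)) = ψ (u ^ ((n : ℤ) * m))) → ∃ k, ψ' = lift k) ∧
          ∀ k l, lift k = lift l ↔ ∃ i j : ℕ, k ≡ 2 ^ i * 3 ^ j * l [MOD n / n.gcd N]) ∧
      ∀ n : ℕ, n ≠ 0 →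
        (Nat.Coprime n N → ∀ ε : ℝ, 0 < ε → ∃ (s : Finset ℤ) (c : ℤ → ℂ),
          distSq ψ u n s c < ε) ∧
        (¬ Nat.Coprime n N → ∀ (s : Finset ℤ) (c : ℤ → ℂ), 1 ≤ distSq ψ u n s c)) := by
  subst hT
  have hux : ∀ x : ℚ, (u : Equiv.Perm ℚ) x = x + 1 := fun x => by rw [hu, ht]
  refine ⟨fun φ hφ k n hk hn => ?_, fun φ hφ => ?_, fun F hF hne => ?_, fun ψ hψ => ?_⟩
  · obtain ⟨ψ, h1, h2, h3⟩ := Run7.h303.TE.tot_act hs2 hs3 ht hG hux hk hn hφ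
    exact ⟨ψ, ⟨h1, h2⟩, fun ψ' h => h3 ψ' h.1 h.2⟩
  · obtain ⟨F, h1, h2, h3, h4⟩ := Run7.h303.TE.tot_rat hs2 hs3 ht hG hux hφ
    exact ⟨F, ⟨h1, h2, h3⟩, fun F' h => h4 F' h.1 h.2.2⟩
  · obtain ⟨φ, h1, h2, h3⟩ := Run7.h303.TE.rat_tot hs2 hs3 ht hG hux hF hne
    exact ⟨φ, ⟨h1, h2⟩, fun φ' h => h3 φ' h.1 h.2⟩
  · obtain ⟨N, hN⟩ := Run7.h303.TE.exists_gen fun m : ℤ => ψ (u ^ m)
    refine ⟨N, hN, fun hne => ?_, fun n K hn hK h2 h3 => ?_, fun n hn => ?_⟩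
    · have h0 := Run7.h303.TE.gen_ne_zero hs2 hs3 ht hG hux hψ hne hN
      exact ⟨h0, Run7.h303.TE.gen_coprime hs2 hs3 ht hG hux hψ hN h0⟩
    · obtain ⟨lift, l1, l2, l3⟩ := Run7.h303.TE.tot_all hs2 hs3 ht hG hux hn hK h2 h3 hψ hN
      refine ⟨lift, fun k => ⟨(l1 k).1, (l1 k).2.1, (l1 k).2.2.1, fun m => ?_⟩, l2, l3⟩
      have e := (l1 k).2.2.2 m
      rw [Run7.h303.TE.chi_exp] at e
      exact e
    · exact Run7.h303.TE.tot_approx hs2 hs3 ht hG hux hn hψ hN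

end Pool.Agent.Results.MP_81910f_an.TotallyExtremeTraces
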